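import Pool.Agent.Helper52_Lin.Stmts

/-!
# MP_e6747d_al, module A: abelian groups are amenable
-/

set_option autoImplicit false

open Pool.Agent.Helper34_Synd
open scoped BigOperators

namespace Pool.Agent.Lin52.H81

/-- A finitely additive probability measure. -/
structure IsMean {N : Type*} (m : Set N → ℝ) : Prop where
  nn : ∀ A, 0 ≤ m A
  un : m Set.univ = 1
  ad : ∀ A B, Disjoint A B → m (A ∪ B) = m A + m B

theorem IsMean.le_one {N : Type*} {m : Set N → ℝ} (h : IsMean m) (A : Set N) : m A ≤ 1 := by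
  have := mean_mono h.nn h.ad (Set.subset_univ A)
  rwa [h.un] at this

/-- Left translation of a set. -/
def tr {N : Type*} [Group N] (g : N) (A : Set N) : Set N := (fun x => g * x) '' A

theorem tr_tr {N : Type*} [Group N] (g h : N) (A : Set N) : tr g (tr h A) = tr (g * h) A := by
  unfold tr
  rw [Set.image_image]
  simp only [mul_assoc]

theorem tr_one {N : Type*} [Group N] (A : Set N) : tr 1 A = A := by
  unfold tr
  simp

/-- Averaging over powers. -/
noncomputable def av {N : Type*} [Group N] (m : Set N → ℝ) (g : N) (n : ℕ) : Set N → ℝ :=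
  fun A => (∑ k ∈ Finset.range n, m (tr (g ^ k) A)) / n

theorem av_mean {N : Type*} [Group N] {m : Set N → ℝ} (h : IsMean m) (g : N) {n : ℕ}
    (hn : 0 < n) : IsMean (av m g n) := by
  have hn' : (0 : ℝ) < n := by exact_mod_cast hn
  refine ⟨?_, ?_, ?_⟩
  · intro A
    exact div_nonneg (Finset.sum_nonneg fun k _ => h.nn _) hn'.le
  · unfold av
    have h1 : ∀ k ∈ Finset.range n, m (tr (g ^ k) Set.univ) = 1 := by
      intro k _
      have : tr (g ^ k) (Set.univ : Set N) = Set.univ := by
        unfold tr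
        rw [Set.image_univ, (mul_left_surjective (g ^ k)).range_eq]
      rw [this, h.un]
    rw [Finset.sum_congr rfl h1, Finset.sum_const, Finset.card_range, nsmul_eq_mul, mul_one]
    exact div_self hn'.ne'
  · intro A B hAB
    unfold av
    rw [← add_div, ← Finset.sum_add_distrib]
    congr 1
    refine Finset.sum_congr rfl fun k _ => ?_
    have : tr (g ^ k) (A ∪ B) = tr (g ^ k) A ∪ tr (g ^ k) B := Set.image_union _ _ _
    rw [this]
    apply h.ad
    exact (Set.disjoint_image_iff (mul_right_injective _)).2 hAB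

theorem av_inv {N : Type*} [Group N] {m : Set N → ℝ} (h : IsMean m) (g : N) {n : ℕ}
    (hn : 0 < n) (A : Set N) : |av m g n (tr g A) - av m g n A| ≤ 1 / n := by
  have hn' : (0 : ℝ) < n := by exact_mod_cast hn
  have h1 : av m g n (tr g A) - av m g n A = (m (tr (g ^ n) A) - m A) / n := by
    unfold av
    rw [← sub_div]
    congr 1
    have h2 : ∀ k ∈ Finset.range n, m (tr (g ^ k) (tr g A)) = m (tr (g ^ (k + 1)) A) := by
      intro k _
      rw [tr_tr, ← pow_succ]
    rw [Finset.sum_congr rfl h2]
    have h3 := Finset.sum_range_sub (fun k => m (tr (g ^ k) A)) n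
    rw [Finset.sum_sub_distrib] at h3
    rw [h3, pow_zero, tr_one]
  rw [h1, abs_div, abs_of_pos hn']
  apply div_le_div_of_nonneg_right _ hn'.le
  rw [abs_le]
  have a1 := h.nn A
  have a2 := h.le_one A
  have a3 := h.nn (tr (g ^ n) A)
  have a4 := h.le_one (tr (g ^ n) A)
  constructor <;> linarith

theorem av_inv' {N : Type*} [Group N] (hc : ∀ a b : N, a * b = b * a) {m : Set N → ℝ} (g h : N)
    {n : ℕ} (hn : 0 < n) (ε : ℝ) (hε : ∀ A, |m (tr h A) - m A| ≤ ε) (A : Set N) :
    |av m g n (tr h A) - av m g n A| ≤ ε := by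
  have hn' : (0 : ℝ) < n := by exact_mod_cast hn
  unfold av
  rw [← sub_div, ← Finset.sum_sub_distrib, abs_div, abs_of_pos hn', div_le_iff₀ hn']
  refine (Finset.abs_sum_le_sum_abs _ _).trans ?_
  refine (Finset.sum_le_sum (g := fun _ => ε) fun k _ => ?_).trans ?_
  · rw [tr_tr, hc, ← tr_tr]
    exact hε _
  · rw [Finset.sum_const, Finset.card_range, nsmul_eq_mul, mul_comm]

theorem exists_almost {N : Type*} [Group N] (hc : ∀ a b : N, a * b = b * a) (S : Finset N)
    (n : ℕ) (hn : 0 < n) :
    ∃ m : Set N → ℝ, IsMean m ∧ ∀ g ∈ S, ∀ A, |m (tr g A) - m A| ≤ 1 / n := by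
  classical
  induction S using Finset.induction_on with
  | empty =>
    refine ⟨fun A => if (1 : N) ∈ A then 1 else 0, ⟨?_, ?_, ?_⟩, ?_⟩
    · intro A
      split_ifs <;> norm_num
    · simp
    · intro A B hAB
      have h0 : ∀ x : N, x ∈ A → x ∉ B := fun x hx => Set.disjoint_left.1 hAB hx
      have := h0 1
      by_cases h1 : (1 : N) ∈ A <;> by_cases h2 : (1 : N) ∈ B
      · exact absurd h2 (this h1)
      · simp [h1, h2]
      · simp [h1, h2]
      · simp [h1, h2]
    · intro g hg
      exact absurd hg (Finset.notMem_empty _)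
  | insert a S ha ih =>
    obtain ⟨m, hm, hm'⟩ := ih
    refine ⟨av m a n, av_mean hm a hn, ?_⟩
    intro g hg A
    rcases Finset.mem_insert.1 hg with rfl | hg
    · exact av_inv hm _ hn A
    · exact av_inv' hc a g hn _ (hm' g hg) A

/-- A -/
theorem a.{u} : AbeStmt.{u} := by
  intro N _ hc
  classical
  choose M hM hM' using fun p : Finset N × ℕ =>
    exists_almost hc p.1 (p.2 + 1) (Nat.succ_pos _)
  let U : Ultrafilter (Finset N × ℕ) := Ultrafilter.of Filter.atTop
  have hU : (U : Filter (Finset N × ℕ)) ≤ Filter.atTop := Ultrafilter.of_le _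
  have hr : ∀ A p, M p A ∈ Set.Icc (0 : ℝ) 1 := fun A p => ⟨(hM p).nn A, (hM p).le_one A⟩
  have hlim : ∀ A, ∃ l : ℝ, Filter.Tendsto (fun p => M p A) U (nhds l) := by
    intro A
    have hcp : IsCompact (Set.Icc (0 : ℝ) 1) := isCompact_Icc
    have := hcp.ultrafilter_le_nhds (U.map (fun p => M p A)) (by
      rw [Filter.le_principal_iff]
      exact Filter.mem_map.2 (Filter.univ_mem' (hr A)))
    obtain ⟨l, _, hl⟩ := this
    exact ⟨l, hl⟩
  choose m hm using hlim
  have huniq : ∀ A l, Filter.Tendsto (fun p => M p A) U (nhds l) → m A = l := fun A l hl =>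
    tendsto_nhds_unique (hm A) hl
  refine ⟨m, ?_, ?_, ?_, ?_⟩
  · intro A
    exact ge_of_tendsto' (hm A) fun p => (hr A p).1
  · apply huniq
    have : (fun p => M p Set.univ) = fun _ => 1 := by
      funext p
      exact (hM p).un
    rw [this]
    exact tendsto_const_nhds
  · intro A B hAB
    apply huniq
    have : (fun p => M p (A ∪ B)) = fun p => M p A + M p B := by
      funext p
      exact (hM p).ad A B hAB
    rw [this]
    exact (hm A).add (hm B)
  · intro g A
    have h1 : Filter.Tendsto (fun p => M p (tr g A) - M p A) U (nhds (m (tr g A) - m A)) :=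
      (hm (tr g A)).sub (hm A)
    have h2 : Filter.Tendsto (fun p => M p (tr g A) - M p A) U (nhds 0) := by
      have h3 : Filter.Tendsto (fun p : Finset N × ℕ => (1 : ℝ) / ((p.2 : ℝ) + 1)) U (nhds 0) := by
        have h4 : Filter.Tendsto (fun p : Finset N × ℕ => p.2) Filter.atTop Filter.atTop :=
          Filter.tendsto_atTop_atTop.2 fun b => ⟨(∅, b), fun p hp => hp.2⟩
        exact (tendsto_one_div_add_atTop_nhds_zero_nat.comp h4).mono_left hU
      refine squeeze_zero_norm' ?_ h3
      apply hU
      filter_upwards [Filter.eventually_ge_atTop (({g} : Finset N), 0)] with p hp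
      rw [Real.norm_eq_abs]
      have h5 := hM' p g (hp.1 (Finset.mem_singleton_self g)) A
      rwa [Nat.cast_succ] at h5
    have h6 := tendsto_nhds_unique h1 h2
    have h7 : m (tr g A) = m A := by linarith
    exact h7

end Pool.Agent.Lin52.H81
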