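import Pool.Agent.Helper52_Lin.Stmts

/-!
# MP_e6747d_al, module Z: arbitrarily large linear images
-/

set_option autoImplicit false

open Pool.Agent.Helper34_Synd

namespace Pool.Agent.Lin52.H81

/-- The inclusion of `GL n F` into the endomorphisms over the algebraic closure. -/
noncomputable def gle (F : Type*) [Field F] (n : ℕ) : Matrix.GeneralLinearGroup (Fin n) F →*
    Module.End (AlgebraicClosure F) (Fin n → AlgebraicClosure F) :=
  ((Matrix.toLinAlgEquiv' (R := AlgebraicClosure F) (n := Fin n)).toAlgHom.toRingHom.toMonoidHom).comp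
    (((algebraMap F (AlgebraicClosure F)).mapMatrix (m := Fin n)).toMonoidHom.comp
      (Units.coeHom (Matrix (Fin n) (Fin n) F)))

theorem gle_inj (F : Type*) [Field F] (n : ℕ) : Function.Injective (gle F n) := by
  intro a b h
  apply Units.ext
  have h1 : (Matrix.toLinAlgEquiv' (R := AlgebraicClosure F) (n := Fin n))
      ((algebraMap F (AlgebraicClosure F)).mapMatrix (a : Matrix (Fin n) (Fin n) F)) =
      (Matrix.toLinAlgEquiv' (R := AlgebraicClosure F) (n := Fin n))
      ((algebraMap F (AlgebraicClosure F)).mapMatrix (b : Matrix (Fin n) (Fin n) F)) := h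
  have h2 := (Matrix.toLinAlgEquiv' (R := AlgebraicClosure F) (n := Fin n)).injective h1
  ext i j
  have h3 := congrFun (congrFun h2 i) j
  simp only [RingHom.mapMatrix_apply, Matrix.map_apply] at h3
  exact (algebraMap F (AlgebraicClosure F)).injective h3

/-- Z -/
theorem z.{u, w} (hI : IndStmt.{u, w}) (hQ : QuoStmt.{u}) : FinStmt.{u, w} := by
  classical
  intro G _ hG
  apply hasSyndeticSubmeasure_of_good'
  by_cases h1 : ∃ (F : Type w) (_ : Field F) (n : ℕ)
      (ρ : G →* Matrix.GeneralLinearGroup (Fin n) F), ¬ (Set.range ρ).Countable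
  · obtain ⟨F, _, n, ρ, hρ⟩ := h1
    refine hI G (AlgebraicClosure F) (Fin n → AlgebraicClosure F) ((gle F n).comp ρ) ?_
    intro hc
    apply hρ
    have h2 : Set.range ((gle F n).comp ρ) = (gle F n) '' (Set.range ρ) := by
      rw [← Set.range_comp]
      rfl
    rw [h2] at hc
    exact Set.countable_of_injective_of_countable_image ((gle_inj F n).injOn) hc
  by_cases h2 : ∃ (F : Type w) (_ : Field F) (n : ℕ)
      (ρ : G →* Matrix.GeneralLinearGroup (Fin n) F), ¬ (Set.range ρ).Finite
  · obtain ⟨F, _, n, ρ, hρ⟩ := h2
    have hcount : (Set.range ρ).Countable := by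
      by_contra hcon
      exact h1 ⟨F, inferInstance, n, ρ, hcon⟩
    refine good_of_surjective ρ.rangeRestrict ρ.rangeRestrict_surjective ?_
    have hr : ((ρ.range : Subgroup _) : Set (Matrix.GeneralLinearGroup (Fin n) F)) =
        Set.range ρ := ρ.coe_range
    have hcr : Countable ρ.range := by
      have : ((ρ.range : Subgroup _) : Set (Matrix.GeneralLinearGroup (Fin n) F)).Countable := by
        rw [hr]; exact hcount
      exact this.to_subtype
    have hir : Infinite ρ.range := by
      have : ((ρ.range : Subgroup _) : Set (Matrix.GeneralLinearGroup (Fin n) F)).Infinite := by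
        rw [hr]; exact hρ
      exact this.to_subtype
    have hit : Infinite (⊤ : Subgroup ρ.range) := Subgroup.topEquiv.symm.toEquiv.infinite_iff.1 hir
    have hct : Countable (⊤ : Subgroup ρ.range) := inferInstance
    exact good_of_normal_countable (⊤ : Subgroup ρ.range)
  · apply hQ
    intro N
    obtain ⟨F, hF, n, ρ, s, hs, hinj⟩ := hG N
    have hfin : (Set.range ρ).Finite := by
      by_contra hcon
      exact h2 ⟨F, inferInstance, n, ρ, hcon⟩
    have hfr : Finite ρ.range := by
      have : ((ρ.range : Subgroup _) : Set (Matrix.GeneralLinearGroup (Fin n) F)).Finite := by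
        rw [ρ.coe_range]; exact hfin
      exact this.to_subtype
    have hidx : ρ.ker.index = Nat.card ρ.range := Subgroup.index_ker ρ
    refine ⟨ρ.ker, inferInstance, ⟨?_⟩, ?_⟩
    · rw [hidx]
      exact Nat.card_pos.ne'
    · rw [hidx]
      refine hs.trans ?_
      have h3 : (s.image ρ).card = s.card := Finset.card_image_of_injOn hinj
      rw [← h3]
      have h4 : ((s.image ρ : Finset _) : Set (Matrix.GeneralLinearGroup (Fin n) F)).ncard ≤
          (Set.range ρ).ncard := by
        apply Set.ncard_le_ncard _ hfin
        intro x hx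
        rw [Finset.coe_image] at hx
        obtain ⟨y, _, rfl⟩ := hx
        exact ⟨y, rfl⟩
      rw [Set.ncard_coe_finset] at h4
      have h5 : Nat.card ρ.range = (Set.range ρ).ncard := by
        rw [← ρ.coe_range]
        rfl
      rw [h5]
      exact h4

end Pool.Agent.Lin52.H81
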